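import Pool.Agent.Helper33.KV.GoalsF3
import Pool.Agent.Helper70.KV.FPSI

/-!
# Project KV (`MP_66be51_an`), packet F3-SID
-/

set_option autoImplicit false

namespace Pool.Agent.Helper36.KV

open Real MeasureTheory Pool.Agent.Helper41.KV Pool.Agent.Helper33.KV Pool.Agent.Helper48.KV
open Set Filter Topology

theorem inn_outr (α : ℝ) {t : ℝ} (hl : 0 < lam α t) (f : ℝ → ℝ → ℝ) (y : ℝ) :
    Real.sqrt (lam α t) * outr α f t (sig α t + lam α t * y) = f t y := by
  unfold outr
  have hs : Real.sqrt (lam α t) ≠ 0 := (Real.sqrt_pos.2 hl).ne'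
  have e : (sig α t + lam α t * y - sig α t) / lam α t = y := by
    field_simp
    ring
  rw [e]
  field_simp

theorem inn_v (α : ℝ) {t : ℝ} (hl : 0 < lam α t) (Z V2 : ℝ → ℝ) (W : ℝ → ℝ → ℝ) (a b : ℝ → ℝ)
    (y : ℝ) : inn α (vOut α Z V2 W a b) t y = inn α W t y +
      (a t * tauA α Z (rho α t) y + b t * tauB α Z V2 (rho α t) y) := by
  unfold inn vOut zOut
  rw [mul_add, inn_outr α hl]

theorem inn_e (α : ℝ) {t : ℝ} (hl : 0 < lam α t) (Z V2 : ℝ → ℝ) (u W : ℝ → ℝ → ℝ) (a b : ℝ → ℝ)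
    (y : ℝ) : inn α (eOut α Z V2 u W a b) t y = etaI α Z V2 u W a b t y := by
  unfold inn eOut zOut etaI inn
  rw [mul_sub, mul_sub, inn_outr α hl]
  ring

/-- derivative of a rescaled function -/
theorem hasDerivAt_scale {g : ℝ → ℝ} {c s l y : ℝ} (hg : DifferentiableAt ℝ g (s + l * y)) :
    HasDerivAt (fun y => c * g (s + l * y)) (c * (deriv g (s + l * y) * l)) y := by
  have h4 : HasDerivAt (fun y => s + l * y) l y := by
    have := ((hasDerivAt_id y).const_mul l).const_add s
    simpa using this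
  exact (hg.hasDerivAt.comp y h4).const_mul c

theorem deriv_scale {g : ℝ → ℝ} (hg : Differentiable ℝ g) (c s l : ℝ) :
    deriv (fun y => c * g (s + l * y)) = fun y => (c * l) * deriv g (s + l * y) := by
  funext y
  rw [(hasDerivAt_scale (hg _)).deriv]
  ring

theorem sm_deriv {g : ℝ → ℝ} (hg : ContDiff ℝ (⊤ : ℕ∞) g) : ContDiff ℝ (⊤ : ℕ∞) (deriv g) :=
  (contDiff_infty_iff_deriv.1 hg).2

/-- the source in inner variables -/
theorem Sin_eq (α : ℝ) {t : ℝ} (hl : 0 < lam α t) (V e et : ℝ → ℝ → ℝ)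
    (hV : ContDiff ℝ (⊤ : ℕ∞) (V t)) (he : ContDiff ℝ (⊤ : ℕ∞) (e t)) (y : ℝ) :
    Sin α V e et t y = lam α t ^ 3 * inn α et t y + deriv (iteratedDeriv 2 (inn α e t)) y +
      deriv (fun y => (inn α V t y + inn α e t y) ^ 5 - inn α V t y ^ 5) y := by
  have hs : 0 < Real.sqrt (lam α t) := Real.sqrt_pos.2 hl
  have hs2 : lam α t = Real.sqrt (lam α t) ^ 2 := (Real.sq_sqrt hl.le).symm
  have he1 := sm_deriv he
  have he2 := sm_deriv he1
  have e1 : deriv (inn α e t) = fun y => (Real.sqrt (lam α t) * lam α t) *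
      deriv (e t) (sig α t + lam α t * y) := deriv_scale (he.differentiable (by simp)) _ _ _
  have e2 : deriv (deriv (inn α e t)) = fun y => (Real.sqrt (lam α t) * lam α t * lam α t) *
      deriv (deriv (e t)) (sig α t + lam α t * y) := by
    rw [e1]
    exact deriv_scale (he1.differentiable (by simp)) _ _ _
  have e3 : deriv (deriv (deriv (inn α e t))) = fun y =>
      (Real.sqrt (lam α t) * lam α t * lam α t * lam α t) *
      deriv (deriv (deriv (e t))) (sig α t + lam α t * y) := by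
    rw [e2]
    exact deriv_scale (he2.differentiable (by simp)) _ _ _
  have h3 : deriv (iteratedDeriv 2 (inn α e t)) y =
      (Real.sqrt (lam α t) * lam α t * lam α t * lam α t) *
      iteratedDeriv 3 (e t) (sig α t + lam α t * y) := by
    have f2 : iteratedDeriv 2 (inn α e t) = deriv (deriv (inn α e t)) := by
      rw [iteratedDeriv_succ, iteratedDeriv_one]
    have f3 : iteratedDeriv 3 (e t) = deriv (deriv (deriv (e t))) := by
      rw [iteratedDeriv_succ, iteratedDeriv_succ, iteratedDeriv_one]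
    rw [f2, f3, e3]
  have hn : ContDiff ℝ (⊤ : ℕ∞) (fun x' => nG (V t x') (e t x')) := by
    unfold nG
    fun_prop
  have h5 : (fun y => (inn α V t y + inn α e t y) ^ 5 - inn α V t y ^ 5) =
      fun y => Real.sqrt (lam α t) ^ 5 * (fun x' => nG (V t x') (e t x'))
        (sig α t + lam α t * y) := by
    funext y
    simp only [inn, nG]
    ring
  rw [h3, h5, deriv_scale (hn.differentiable (by simp))]
  unfold Sin inn srcS
  set s := Real.sqrt (lam α t) with hsdef
  rw [show lam α t = s ^ 2 from hs2]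
  ring

theorem thm_SID (_hE : S_ECL1) (hC : S_CURVE) (_hT : S_TAUB) (_hF : S_FLUXP) (hP : S_PSI) :
    S_SID := by
  intro α N0 K T C n Z Y V2 W Wt r r' hα hα1 hT0 hZ hY hV hB u t1 t2 ht1 ht12 ht2 hu a b a' b'
    hab Vt et hVi hVti hVd hei heti hed t ht
  have ht0 : 0 < t := ht1.trans_le ht.1
  obtain ⟨c1, c2, c3, c4, c5, c6, c7, c8⟩ := (hC α hα hα1).1 t ht0
  have hlp : ∀ τ ∈ Icc t1 t2, 0 < lam α τ := fun τ hτ =>
    ((hC α hα hα1).1 τ (ht1.trans_le hτ.1)).2.1
  have hV1 : ∀ τ ∈ Icc t1 t2, ∀ y, inn α (vOut α Z V2 W a b) τ y = inn α W τ y +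
      (a τ * tauA α Z (rho α τ) y + b τ * tauB α Z V2 (rho α τ) y) :=
    fun τ hτ y => inn_v α (hlp τ hτ) Z V2 W a b y
  have he1 : ∀ τ ∈ Icc t1 t2, ∀ y, inn α (eOut α Z V2 u W a b) τ y =
      etaI α Z V2 u W a b τ y := fun τ hτ y => inn_e α (hlp τ hτ) Z V2 u W a b y
  refine ⟨hV1 t ht, he1 t ht, fun y => ?_⟩
  have hud : UniqueDiffWithinAt ℝ (Icc t1 t2) t := uniqueDiffOn_Icc ht12 t ht
  have hefun : inn α (eOut α Z V2 u W a b) t = etaI α Z V2 u W a b t := funext (he1 t ht)
  have hVfun : inn α (vOut α Z V2 W a b) t = fun y => inn α W t y +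
      (a t * tauA α Z (rho α t) y + b t * tauB α Z V2 (rho α t) y) := funext (hV1 t ht)
  constructor
  · -- the source
    have h1 := psi_inn hC α hα hα1 (eOut α Z V2 u W a b) et t1 t2 ht1 hei hed t ht y
    have h2 := hP α N0 K T C n Z Y V2 W Wt r r' hα hα1 hT0 hZ hY hV hB u t1 t2 ht1 ht12 ht2 hu
      a b a' b' hab t ht y
    have h3 := h2.congr (fun τ hτ => he1 τ hτ y) (he1 t ht y)
    have h4 := hud.eq_deriv _ h1 h3
    have hl3 : (1 / lam α t ^ 3) ≠ 0 := by positivity
    have h5 := mul_left_cancel₀ hl3 h4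
    rw [hefun] at h5
    have h6 := Sin_eq α c2 (vOut α Z V2 W a b) (eOut α Z V2 u W a b) et (hVi.smooth t ht)
      (hei.smooth t ht) y
    rw [hefun] at h6
    have hUs : ContDiff ℝ (⊤ : ℕ∞) (inn α u t) := by
      have := hu.hinf.smooth t ht
      unfold inn
      fun_prop
    have hes : ContDiff ℝ (⊤ : ℕ∞) (etaI α Z V2 u W a b t) := by
      rw [← hefun]
      have := hei.smooth t ht
      unfold inn
      fun_prop
    have hsum : ∀ x, inn α (vOut α Z V2 W a b) t x + etaI α Z V2 u W a b t x = inn α u t x := by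
      intro x
      rw [hV1 t ht x]
      unfold etaI
      ring
    have hvv : ∀ x, inn α (vOut α Z V2 W a b) t x = inn α u t x - etaI α Z V2 u W a b t x := by
      intro x
      rw [← hsum x]
      ring
    have h7 : (fun y => (inn α (vOut α Z V2 W a b) t y + etaI α Z V2 u W a b t y) ^ 5 -
        inn α (vOut α Z V2 W a b) t y ^ 5) =
        fun y => inn α u t y ^ 5 - (inn α u t y - etaI α Z V2 u W a b t y) ^ 5 := by
      funext x
      rw [hsum x, hvv x]
    rw [h7] at h6
    -- splitting of the derivative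
    have i2 : ContDiff ℝ (⊤ : ℕ∞) (iteratedDeriv 2 (etaI α Z V2 u W a b t)) := by
      rw [iteratedDeriv_succ, iteratedDeriv_one]
      exact sm_deriv (sm_deriv hes)
    have d1 : DifferentiableAt ℝ (iteratedDeriv 2 (etaI α Z V2 u W a b t)) y :=
      (i2.differentiable (by simp)) y
    have d2 : DifferentiableAt ℝ (etaI α Z V2 u W a b t) y := (hes.differentiable (by simp)) y
    have d3 : DifferentiableAt ℝ (fun y => inn α u t y ^ 5 -
        (inn α u t y - etaI α Z V2 u W a b t y) ^ 5) y := by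
      have : ContDiff ℝ (⊤ : ℕ∞) (fun y => inn α u t y ^ 5 -
        (inn α u t y - etaI α Z V2 u W a b t y) ^ 5) := by fun_prop
      exact (this.differentiable (by simp)) y
    have h8 : deriv (fun x => iteratedDeriv 2 (etaI α Z V2 u W a b t) x
        - etaI α Z V2 u W a b t x + inn α u t x ^ 5 -
          (inn α u t x - etaI α Z V2 u W a b t x) ^ 5) y =
        deriv (iteratedDeriv 2 (etaI α Z V2 u W a b t)) y - deriv (etaI α Z V2 u W a b t) y +
        deriv (fun y => inn α u t y ^ 5 - (inn α u t y - etaI α Z V2 u W a b t y) ^ 5) y := by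
      have q := ((d1.hasDerivAt.sub d2.hasDerivAt).add d3.hasDerivAt).deriv
      rw [← q]
      congr 1
      funext x
      simp only [Pi.add_apply, Pi.sub_apply]
      ring
    have h9 : (fun x => (inn α u t x - etaI α Z V2 u W a b t x) ^ 5 - inn α W t x ^ 5
                  - 5 * inn α W t x ^ 4 *
                    (inn α u t x - etaI α Z V2 u W a b t x - inn α W t x)) =
        fun x => (inn α W t x + (a t * tauA α Z (rho α t) x + b t * tauB α Z V2 (rho α t) x)) ^ 5
        - inn α W t x ^ 5 - 5 * inn α W t x ^ 4 *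
          (a t * tauA α Z (rho α t) x + b t * tauB α Z V2 (rho α t) x) := by
      funext x
      rw [← hvv x, hV1 t ht x]
      ring
    rw [h8, h9] at h5
    rw [h6]
    unfold S0f
    linarith
  · -- the time derivative
    have h1 := psi_inn hC α hα hα1 (vOut α Z V2 W a b) Vt t1 t2 ht1 hVi hVd t ht y
    have htT : t ≤ T := ht.2.trans ht2
    obtain ⟨hW, hWt, hWd⟩ := hB.hinf (t / 2) T (by linarith) (by linarith) le_rfl
    have h2 := psi_inn hC α hα hα1 W Wt (t / 2) T (by linarith) hW hWd t ⟨by linarith, htT⟩ y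
    have hmem : Icc (t / 2) T ∈ 𝓝[Ioc 0 T] t := by
      rw [mem_nhdsWithin]
      refine ⟨Ioi (t / 2), isOpen_Ioi, by simpa using (by linarith : t / 2 < t), ?_⟩
      rintro x ⟨hx1, hx2⟩
      exact ⟨le_of_lt hx1, hx2.2⟩
    have h3 := h2.mono_of_mem_nhdsWithin hmem
    have hud2 : UniqueDiffWithinAt ℝ (Ioc 0 T) t := uniqueDiffOn_Ioc 0 T t ⟨ht0, htT⟩
    rw [← h3.derivWithin hud2] at h3
    have h4 : HasDerivWithinAt (fun τ => inn α W τ y)
        (derivWithin (fun τ => inn α W τ y) (Ioc 0 T) t) (Icc t1 t2) t :=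
      h3.mono fun x hx => ⟨ht1.trans_le hx.1, hx.2.trans ht2⟩
    obtain ⟨ha, hb⟩ := hab t ht
    have hρ : HasDerivWithinAt (rho α) (2 * α * rho α t ^ 2 / lam α t ^ 3) (Icc t1 t2) t :=
      c8.hasDerivWithinAt
    have hA1 : HasDerivWithinAt (fun τ => tauA α Z (rho α τ) y)
        (2 * α * rho α t ^ 2 / lam α t ^ 3 * kap α * (y * deriv Z y)) (Icc t1 t2) t :=
      ((hρ.mul_const (kap α)).mul_const (y * deriv Z y)).const_add (Lam Q y)
    have hB1 : HasDerivWithinAt (fun τ => tauB α Z V2 (rho α τ) y)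
        (2 * α * rho α t ^ 2 / lam α t ^ 3 * kap α * deriv Z y +
          ((2 : ℕ) * rho α t ^ (2 - 1) * (2 * α * rho α t ^ 2 / lam α t ^ 3)) *
            (deriv V2 y - cc α * Z y)) (Icc t1 t2) t :=
      (((hρ.mul_const (kap α)).mul_const (deriv Z y)).const_add (deriv Q y)).add
        ((hρ.pow 2).mul_const (deriv V2 y - cc α * Z y))
    have h5 := h4.add ((ha.mul hA1).add (hb.mul hB1))
    have h6 := h5.congr (fun τ hτ => (hV1 τ hτ y : _)) (hV1 t ht y)
    have h7 := hud.eq_deriv _ h1 h6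
    have hl : lam α t ^ 3 ≠ 0 := by positivity
    unfold DVf
    have h8 : lam α t ^ 3 * inn α Vt t y + deriv (inn α (vOut α Z V2 W a b) t) y
        + (2 * α + 1) * rho α t * Lam (inn α (vOut α Z V2 W a b) t) y =
        lam α t ^ 3 * (derivWithin (fun τ => inn α W τ y) (Ioc 0 T) t +
        (a' t * tauA α Z (rho α t) y +
          a t * (2 * α * rho α t ^ 2 / lam α t ^ 3 * kap α * (y * deriv Z y)) +
        (b' t * tauB α Z V2 (rho α t) y +
          b t * (2 * α * rho α t ^ 2 / lam α t ^ 3 * kap α * deriv Z y +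
        ((2 : ℕ) * rho α t ^ (2 - 1) * (2 * α * rho α t ^ 2 / lam α t ^ 3)) *
          (deriv V2 y - cc α * Z y))))) := by
      rw [← h7]
      field_simp
    have h9 : lam α t ^ 3 * inn α Vt t y + deriv (inn α (vOut α Z V2 W a b) t) y =
        lam α t ^ 3 * (derivWithin (fun τ => inn α W τ y) (Ioc 0 T) t +
        (a' t * tauA α Z (rho α t) y +
          a t * (2 * α * rho α t ^ 2 / lam α t ^ 3 * kap α * (y * deriv Z y)) +
        (b' t * tauB α Z V2 (rho α t) y +
          b t * (2 * α * rho α t ^ 2 / lam α t ^ 3 * kap α * deriv Z y +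
        ((2 : ℕ) * rho α t ^ (2 - 1) * (2 * α * rho α t ^ 2 / lam α t ^ 3)) *
          (deriv V2 y - cc α * Z y))))) -
        (2 * α + 1) * rho α t * Lam (inn α (vOut α Z V2 W a b) t) y := by
      linarith
    rw [h9]
    field_simp
    push_cast
    ring

end Pool.Agent.Helper36.KV
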