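import Pool.Agent.Helper33.KV.GoalsF3
import Pool.Agent.Helper98.KV.FB
import Pool.Agent.Helper19.KV.F_LAWQ

/-!
# Project KV (`MP_66be51_an`), packet F3-S0B
-/

set_option autoImplicit false

namespace Pool.Agent.Helper36.KV.S0

open Real MeasureTheory Pool.Agent.Helper41.KV Pool.Agent.Helper33.KV Pool.Agent.Helper48.KV
open Pool.Agent.Helper98.KV
open Set Filter Topology

theorem sm_deriv {g : ℝ → ℝ} (hg : ContDiff ℝ (⊤ : ℕ∞) g) : ContDiff ℝ (⊤ : ℕ∞) (deriv g) :=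
  (contDiff_infty_iff_deriv.1 hg).2

theorem sm_has {g : ℝ → ℝ} (hg : ContDiff ℝ (⊤ : ℕ∞) g) (y : ℝ) : HasDerivAt g (deriv g y) y :=
  ((hg.differentiable (by simp)) y).hasDerivAt

theorem mulb {a b A B : ℝ} (ha : |a| ≤ A) (hb : |b| ≤ B) : |a * b| ≤ A * B := by
  rw [abs_mul]
  exact mul_le_mul ha hb (abs_nonneg _) ((abs_nonneg _).trans ha)

theorem cub {M x y w : ℝ} (hx : |x| ≤ M) (hy : |y| ≤ M) (hw : |w| ≤ M) :
    |x * y * w| ≤ M ^ 3 := by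
  have h := mulb (mulb hx hy) hw
  calc _ ≤ M * M * M := h
    _ = M ^ 3 := by ring

/-- first derivative of the nonlinear term -/
def n1 (v v1 z z1 : ℝ) : ℝ :=
  z * z * (30 * v ^ 2 * v1 + 20 * v * v1 * z + 5 * v1 * z ^ 2) +
    z * z1 * (20 * v ^ 3 + 30 * v ^ 2 * z + 20 * v * z ^ 2 + 5 * z ^ 3)

/-- second derivative of the nonlinear term -/
def n2 (v v1 v2 z z1 z2 : ℝ) : ℝ :=
  z * z * ((60 * v + 20 * z) * v1 ^ 2 + (30 * v ^ 2 + 20 * v * z + 5 * z ^ 2) * v2) +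
    z * z1 * (2 * (60 * v ^ 2 + 60 * v * z + 20 * z ^ 2) * v1) +
    z1 * z1 * (20 * v ^ 3 + 60 * v ^ 2 * z + 60 * v * z ^ 2 + 20 * z ^ 3) +
    z * z2 * (20 * v ^ 3 + 30 * v ^ 2 * z + 20 * v * z ^ 2 + 5 * z ^ 3)

theorem n_bd {M s v v1 v2 z z1 z2 : ℝ} (hsM : s ≤ M) (hv : |v| ≤ M) (hv1 : |v1| ≤ M)
    (hv2 : |v2| ≤ M) (hz : |z| ≤ s) (hz1 : |z1| ≤ s) (hz2 : |z2| ≤ s) :
    |n1 v v1 z z1| ≤ 650 * M ^ 3 * s ^ 2 ∧ |n2 v v1 v2 z z1 z2| ≤ 650 * M ^ 3 * s ^ 2 := by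
  have hzM := hz.trans hsM
  have hM : 0 ≤ M := (abs_nonneg _).trans hv
  have p1 : |30 * v ^ 2 * v1 + 20 * v * v1 * z + 5 * v1 * z ^ 2| ≤ 55 * M ^ 3 := by
    have a1 := abs_le.1 (cub hv hv hv1)
    have a2 := abs_le.1 (cub hv hv1 hzM)
    have a3 := abs_le.1 (cub hv1 hzM hzM)
    rw [abs_le]
    constructor <;> nlinarith [a1.1, a1.2, a2.1, a2.2, a3.1, a3.2]
  have p2 : |20 * v ^ 3 + 30 * v ^ 2 * z + 20 * v * z ^ 2 + 5 * z ^ 3| ≤ 75 * M ^ 3 := by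
    have a1 := abs_le.1 (cub hv hv hv)
    have a2 := abs_le.1 (cub hv hv hzM)
    have a3 := abs_le.1 (cub hv hzM hzM)
    have a4 := abs_le.1 (cub hzM hzM hzM)
    rw [abs_le]
    constructor <;> nlinarith [a1.1, a1.2, a2.1, a2.2, a3.1, a3.2, a4.1, a4.2]
  have q1 : |(60 * v + 20 * z) * v1 ^ 2 + (30 * v ^ 2 + 20 * v * z + 5 * z ^ 2) * v2| ≤
      135 * M ^ 3 := by
    have a1 := abs_le.1 (cub hv hv1 hv1)
    have a2 := abs_le.1 (cub hzM hv1 hv1)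
    have a3 := abs_le.1 (cub hv hv hv2)
    have a4 := abs_le.1 (cub hv hzM hv2)
    have a5 := abs_le.1 (cub hzM hzM hv2)
    rw [abs_le]
    constructor <;>
      nlinarith [a1.1, a1.2, a2.1, a2.2, a3.1, a3.2, a4.1, a4.2, a5.1, a5.2]
  have q2 : |2 * (60 * v ^ 2 + 60 * v * z + 20 * z ^ 2) * v1| ≤ 280 * M ^ 3 := by
    have a1 := abs_le.1 (cub hv hv hv1)
    have a2 := abs_le.1 (cub hv hzM hv1)
    have a3 := abs_le.1 (cub hzM hzM hv1)
    rw [abs_le]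
    constructor <;> nlinarith [a1.1, a1.2, a2.1, a2.2, a3.1, a3.2]
  have q3 : |20 * v ^ 3 + 60 * v ^ 2 * z + 60 * v * z ^ 2 + 20 * z ^ 3| ≤ 160 * M ^ 3 := by
    have a1 := abs_le.1 (cub hv hv hv)
    have a2 := abs_le.1 (cub hv hv hzM)
    have a3 := abs_le.1 (cub hv hzM hzM)
    have a4 := abs_le.1 (cub hzM hzM hzM)
    rw [abs_le]
    constructor <;> nlinarith [a1.1, a1.2, a2.1, a2.2, a3.1, a3.2, a4.1, a4.2]
  have hpos : 0 ≤ M ^ 3 * s ^ 2 := by positivity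
  constructor
  · have b1 := abs_le.1 (mulb (mulb hz hz) p1)
    have b2 := abs_le.1 (mulb (mulb hz hz1) p2)
    unfold n1
    rw [abs_le]
    constructor <;> nlinarith [b1.1, b1.2, b2.1, b2.2]
  · have b1 := abs_le.1 (mulb (mulb hz hz) q1)
    have b2 := abs_le.1 (mulb (mulb hz hz1) q2)
    have b3 := abs_le.1 (mulb (mulb hz1 hz1) q3)
    have b4 := abs_le.1 (mulb (mulb hz hz2) p2)
    unfold n2
    rw [abs_le]
    constructor <;> nlinarith [b1.1, b1.2, b2.1, b2.2, b3.1, b3.2, b4.1, b4.2]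

theorem n_d1 {v z : ℝ → ℝ} (hv : ContDiff ℝ (⊤ : ℕ∞) v) (hz : ContDiff ℝ (⊤ : ℕ∞) z) :
    deriv (fun x => (v x + z x) ^ 5 - v x ^ 5 - 5 * v x ^ 4 * z x) =
      fun x => n1 (v x) (deriv v x) (z x) (deriv z x) := by
  funext x
  have dv := sm_has hv x
  have dz := sm_has hz x
  have h := ((((dv.add dz).pow 5).sub (dv.pow 5)).sub (((dv.pow 4).const_mul 5).mul dz)).deriv
  have h' : deriv (fun x => (v x + z x) ^ 5 - v x ^ 5 - 5 * v x ^ 4 * z x) x = _ := h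
  rw [h']
  simp only [Pi.add_apply, n1, Pi.pow_apply]
  push_cast
  ring

theorem n_d2 {v z : ℝ → ℝ} (hv : ContDiff ℝ (⊤ : ℕ∞) v) (hz : ContDiff ℝ (⊤ : ℕ∞) z) :
    deriv (fun x => n1 (v x) (deriv v x) (z x) (deriv z x)) =
      fun x => n2 (v x) (deriv v x) (deriv (deriv v) x) (z x) (deriv z x)
        (deriv (deriv z) x) := by
  funext x
  have dv := sm_has hv x
  have dz := sm_has hz x
  have dv1 := sm_has (sm_deriv hv) x
  have dz1 := sm_has (sm_deriv hz) x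
  have e : (fun x => n1 (v x) (deriv v x) (z x) (deriv z x)) = fun x =>
      5 * (v x + z x) ^ 4 * (deriv v x + deriv z x) - 5 * v x ^ 4 * deriv v x -
        20 * v x ^ 3 * deriv v x * z x - 5 * v x ^ 4 * deriv z x := by
    funext x
    unfold n1
    ring
  rw [e]
  have h := (((((((dv.add dz).pow 4).const_mul 5).mul (dv1.add dz1)).sub
    (((dv.pow 4).const_mul 5).mul dv1)).sub
    ((((dv.pow 3).const_mul 20).mul dv1).mul dz)).sub
    (((dv.pow 4).const_mul 5).mul dz1)).deriv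
  have h' : deriv (fun x =>
      5 * (v x + z x) ^ 4 * (deriv v x + deriv z x) - 5 * v x ^ 4 * deriv v x -
        20 * v x ^ 3 * deriv v x * z x - 5 * v x ^ 4 * deriv z x) x = _ := h
  rw [h']
  simp only [Pi.add_apply, n2, Pi.pow_apply, Pi.mul_apply]
  push_cast
  ring

theorem Lam_sm {g : ℝ → ℝ} (hg : ContDiff ℝ (⊤ : ℕ∞) g) : ContDiff ℝ (⊤ : ℕ∞) (Lam g) := by
  have h := sm_deriv hg
  have e : Lam g = fun y => g y / 2 + y * deriv g y := rfl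
  rw [e]
  fun_prop

theorem calL_sm {α ρ : ℝ} {v τ D : ℝ → ℝ} (hv : ContDiff ℝ (⊤ : ℕ∞) v)
    (hτ : ContDiff ℝ (⊤ : ℕ∞) τ) (hD : ContDiff ℝ (⊤ : ℕ∞) D) :
    ContDiff ℝ (⊤ : ℕ∞) (calL α ρ v τ D) := by
  have h2 := sm_deriv (sm_deriv hτ)
  have h3 : ContDiff ℝ (⊤ : ℕ∞) (fun x => deriv (deriv τ) x - τ x + 5 * v x ^ 4 * τ x) := by
    fun_prop
  have h4 := sm_deriv h3
  have h5 := Lam_sm hτ
  have e : calL α ρ v τ D = fun y => D y + deriv (fun x => deriv (deriv τ) x - τ x +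
      5 * v x ^ 4 * τ x) y - (2 * α + 1) * ρ * Lam τ y := rfl
  rw [e]
  exact (hD.add h4).sub (contDiff_const.mul h5)

theorem int_exp_abs : Integrable (fun y : ℝ => exp (-|y|)) := by
  have h := Pool.Agent.Helper33.KV.LawQ19.int_exp_half
  have h2 := h.comp_mul_left' (two_ne_zero (α := ℝ))
  refine h2.congr (Eventually.of_forall fun y => ?_)
  simp only [abs_mul, abs_two]
  congr 1
  ring

theorem wt_le {K ρ : ℝ} (hρ : 0 < ρ) (y : ℝ) : 0 < wt K ρ y ∧ wt K ρ y ≤ 1 := by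
  have h := mul_pos hρ (exp_pos (-(y / K)))
  unfold wt
  refine ⟨by positivity, ?_⟩
  rw [div_le_one (by positivity)]
  linarith

theorem wt_cont {K ρ : ℝ} (hρ : 0 < ρ) : Continuous (wt K ρ) := by
  unfold wt
  apply Continuous.div continuous_const (by fun_prop)
  intro y
  have := exp_pos (-(y / K))
  positivity

/-- the statement for given functions -/
theorem stat {ρ C Ct C1 M C6 a b K p : ℝ} {v R tA tB sA sB S : ℝ → ℝ}
    (hM : M = 2 * |C| + 2 * |Ct| + 1) (hC6 : C6 = |C1| + 1300 * M ^ 3 * Ct ^ 2)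
    (c3 : 0 < ρ) (hρT' : ρ ≤ 1) (hρb : ρ ≤ 1 / 16) (hρc : ρ ≤ 1 / (8 * C6 + 8))
    (ha : |a| ≤ ρ ^ 2) (hb : |b| ≤ ρ ^ 2) (hp0 : 0 ≤ p)
    (hvs : ContDiff ℝ (⊤ : ℕ∞) v) (hR : ContDiff ℝ (⊤ : ℕ∞) R) (hAs : ContDiff ℝ (⊤ : ℕ∞) tA)
    (hBs : ContDiff ℝ (⊤ : ℕ∞) tB) (hsA : ContDiff ℝ (⊤ : ℕ∞) sA)
    (hsB : ContDiff ℝ (⊤ : ℕ∞) sB)
    (hR0 : MemLp R 2) (hR1 : MemLp (deriv R) 2)
    (hbexp : ∀ y, |R y| ≤ ρ ^ ((5 : ℝ) / 4))
    (hres : (∫ y, wt K ρ y * (R y ^ 2 + deriv R y ^ 2)) ≤ C * p ^ 2)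
    (hb0 : ∀ y, |v y| ≤ C * (exp (-|y| / 2) + ρ ^ ((1 : ℝ) / 2)))
    (hb1 : ∀ y, |deriv v y| ≤ C * (exp (-|y| / 2) + ρ ^ ((5 : ℝ) / 4)))
    (hb2 : ∀ y, |deriv (deriv v) y| ≤ C * (exp (-|y| / 2) + ρ ^ ((5 : ℝ) / 4)))
    (gA : ∀ y, |tA y| ≤ Ct * exp (-(3 / 4) * |y|) ∧ |deriv tA y| ≤ Ct * exp (-(3 / 4) * |y|) ∧
      |deriv (deriv tA) y| ≤ Ct * exp (-(3 / 4) * |y|))
    (gB : ∀ y, |tB y| ≤ Ct * exp (-(3 / 4) * |y|) ∧ |deriv tB y| ≤ Ct * exp (-(3 / 4) * |y|) ∧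
      |deriv (deriv tB) y| ≤ Ct * exp (-(3 / 4) * |y|))
    (hs1 : ∀ y, |sA y| ≤ C1 * ρ ^ 2 * exp (-|y| / 2) ∧
      |deriv sA y| ≤ C1 * ρ ^ 2 * exp (-|y| / 2) ∧
      |sB y| ≤ C1 * ρ ^ 3 * exp (-|y| / 2) ∧ |deriv sB y| ≤ C1 * ρ ^ 3 * exp (-|y| / 2))
    (hS : S = fun y => R y + a * sA y + b * sB y +
      deriv (fun x => (v x + (a * tA x + b * tB x)) ^ 5 - v x ^ 5 -
        5 * v x ^ 4 * (a * tA x + b * tB x)) y) :
    ContDiff ℝ (⊤ : ℕ∞) S ∧ (∀ y, |S y| ≤ ρ) ∧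
     Integrable (fun y => wt K ρ y * (S y ^ 2 + deriv S y ^ 2)) ∧
     (∫ y, wt K ρ y * (S y ^ 2 + deriv S y ^ 2)) ≤
      ((2 * |C| + 4 * C6 ^ 2 * (∫ y : ℝ, exp (-|y|)) + 1) *
        (p + ρ ^ 2 * |a| + ρ ^ 3 * |b| + a ^ 2 + b ^ 2)) ^ 2 := by
  have hIpos : 0 ≤ ∫ y : ℝ, exp (-|y|) := integral_nonneg fun y => (exp_pos _).le
  obtain ⟨I1, hI1⟩ : ∃ I1 : ℝ, I1 = ∫ y : ℝ, exp (-|y|) := ⟨_, rfl⟩
  rw [← hI1] at hIpos ⊢
  have hM0 : 0 < M := by rw [hM]; positivity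
  have hC60 : 0 ≤ C6 := by rw [hC6]; positivity
  set z : ℝ → ℝ := fun x => a * tA x + b * tB x with hz
  have hzs : ContDiff ℝ (⊤ : ℕ∞) z := (contDiff_const.mul hAs).add (contDiff_const.mul hBs)
  have z1 : deriv z = fun x => a * deriv tA x + b * deriv tB x := by
    funext x
    exact (((sm_has hAs x).const_mul a).add ((sm_has hBs x).const_mul b)).deriv
  have z2 : deriv (deriv z) = fun x => a * deriv (deriv tA) x + b * deriv (deriv tB) x := by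
    rw [z1]
    funext x
    exact (((sm_has (sm_deriv hAs) x).const_mul a).add
      ((sm_has (sm_deriv hBs) x).const_mul b)).deriv
  -- the function
  set N1 : ℝ → ℝ := fun x => n1 (v x) (deriv v x) (z x) (deriv z x) with hN1
  have hN1s : ContDiff ℝ (⊤ : ℕ∞) N1 := by
    have h1 := sm_deriv hvs
    have h2 := sm_deriv hzs
    rw [hN1]
    unfold n1
    fun_prop
  have hS0 : S = fun y => R y + a * sA y + b * sB y + N1 y := by
    rw [hS]
    funext y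
    have h := congrFun (n_d1 hvs hzs) y
    rw [hN1]
    simp only
    rw [← h]
  have hSs : ContDiff ℝ (⊤ : ℕ∞) (S) := by
    rw [hS0]
    exact ((hR.add (contDiff_const.mul hsA)).add (contDiff_const.mul hsB)).add hN1s
  have hS1 : deriv (S) = fun y => deriv R y + a * deriv sA y +
      b * deriv sB y + n2 (v y) (deriv v y) (deriv (deriv v) y) (z y) (deriv z y)
        (deriv (deriv z) y) := by
    rw [hS0]
    funext y
    have h := ((((sm_has hR y).add ((sm_has hsA y).const_mul a)).add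
      ((sm_has hsB y).const_mul b)).add (sm_has hN1s y)).deriv
    have h' : deriv (fun y => R y + a * sA y + b * sB y + N1 y) y = _ := h
    rw [h', congrFun (n_d2 hvs hzs) y]
  -- bounds
  have ha1 : |a| ≤ 1 := ha.trans (pow_le_one₀ c3.le hρT')
  have hb1' : |b| ≤ 1 := hb.trans (pow_le_one₀ c3.le hρT')
  have hE1 : ∀ y : ℝ, exp (-|y| / 2) ≤ 1 := fun y => by
    rw [exp_le_one_iff]
    have := abs_nonneg y
    linarith
  have hCabs := abs_nonneg C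
  have hCtabs := abs_nonneg Ct
  have hpw : ∀ p : ℝ, 0 ≤ p → ρ ^ p ≤ 1 := fun p hp => Real.rpow_le_one c3.le hρT' hp
  have hvb : ∀ y, |v y| ≤ M ∧ |deriv v y| ≤ M ∧ |deriv (deriv v) y| ≤ M := by
    intro y
    have hCle := le_abs_self C
    have e1 := exp_pos (-|y| / 2)
    have p1 : 0 ≤ ρ ^ ((1 : ℝ) / 2) := Real.rpow_nonneg c3.le _
    have p2 : 0 ≤ ρ ^ ((5 : ℝ) / 4) := Real.rpow_nonneg c3.le _
    have q1 := hpw (1 / 2) (by norm_num)
    have q2 := hpw (5 / 4) (by norm_num)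
    have e2 := hE1 y
    have k1 : C * (exp (-|y| / 2) + ρ ^ ((1 : ℝ) / 2)) ≤ |C| * 2 :=
      mul_le_mul hCle (by linarith) (by positivity) hCabs
    have k2 : C * (exp (-|y| / 2) + ρ ^ ((5 : ℝ) / 4)) ≤ |C| * 2 :=
      mul_le_mul hCle (by linarith) (by positivity) hCabs
    refine ⟨(hb0 y).trans (by linarith), (hb1 y).trans (by linarith), ?_⟩
    exact (hb2 y).trans (by linarith)
  have hzb : ∀ y, |z y| ≤ (|a| + |b|) * (|Ct| * exp (-(3 / 4) * |y|)) ∧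
      |deriv z y| ≤ (|a| + |b|) * (|Ct| * exp (-(3 / 4) * |y|)) ∧
      |deriv (deriv z) y| ≤ (|a| + |b|) * (|Ct| * exp (-(3 / 4) * |y|)) := by
    intro y
    have e1 := exp_pos (-(3 / 4) * |y|)
    have hle : Ct * exp (-(3 / 4) * |y|) ≤ |Ct| * exp (-(3 / 4) * |y|) :=
      mul_le_mul_of_nonneg_right (le_abs_self _) e1.le
    have key : ∀ p q : ℝ, |p| ≤ Ct * exp (-(3 / 4) * |y|) → |q| ≤ Ct * exp (-(3 / 4) * |y|) →
        |a * p + b * q| ≤ (|a| + |b|) * (|Ct| * exp (-(3 / 4) * |y|)) := by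
      intro p q hp hq
      have h1 := mulb (le_refl |a|) (hp.trans hle)
      have h2 := mulb (le_refl |b|) (hq.trans hle)
      have h3 := abs_add_le (a * p) (b * q)
      linarith
    obtain ⟨g0, g1, g2⟩ := gA y
    obtain ⟨g0', g1', g2'⟩ := gB y
    refine ⟨key _ _ g0 g0', ?_, ?_⟩
    · rw [z1]; exact key _ _ g1 g1'
    · rw [z2]; exact key _ _ g2 g2'
  have hnb : ∀ y, |N1 y| ≤ 1300 * M ^ 3 * Ct ^ 2 * (a ^ 2 + b ^ 2) * exp (-|y| / 2) ∧
      |n2 (v y) (deriv v y) (deriv (deriv v) y) (z y) (deriv z y)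
        (deriv (deriv z) y)| ≤ 1300 * M ^ 3 * Ct ^ 2 * (a ^ 2 + b ^ 2) * exp (-|y| / 2) := by
    intro y
    obtain ⟨v0, v1, v2⟩ := hvb y
    obtain ⟨z0, z1, z2⟩ := hzb y
    have e1 := exp_pos (-(3 / 4) * |y|)
    have e2 : exp (-(3 / 4) * |y|) ≤ 1 := by
      rw [exp_le_one_iff]
      have := abs_nonneg y
      linarith
    have hsM : (|a| + |b|) * (|Ct| * exp (-(3 / 4) * |y|)) ≤ M := by
      have h1 : |Ct| * exp (-(3 / 4) * |y|) ≤ |Ct| := mul_le_of_le_one_right hCtabs e2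
      have h2 : (|a| + |b|) * (|Ct| * exp (-(3 / 4) * |y|)) ≤ 2 * |Ct| :=
        mul_le_mul (by linarith) h1 (by positivity) (by norm_num)
      linarith
    obtain ⟨r1, r2⟩ := n_bd hsM v0 v1 v2 z0 z1 z2
    have hs2 : ((|a| + |b|) * (|Ct| * exp (-(3 / 4) * |y|))) ^ 2 ≤
        2 * (a ^ 2 + b ^ 2) * Ct ^ 2 * exp (-|y| / 2) := by
      have h1 : (|a| + |b|) ^ 2 ≤ 2 * (a ^ 2 + b ^ 2) := by
        have := sq_nonneg (|a| - |b|)
        nlinarith [sq_abs a, sq_abs b]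
      have h2 : exp (-(3 / 4) * |y|) ^ 2 ≤ exp (-|y| / 2) := by
        rw [← exp_nat_mul]
        apply exp_le_exp.2
        have := abs_nonneg y
        push_cast
        linarith
      calc ((|a| + |b|) * (|Ct| * exp (-(3 / 4) * |y|))) ^ 2 =
          (|a| + |b|) ^ 2 * (|Ct| ^ 2 * exp (-(3 / 4) * |y|) ^ 2) := by ring
        _ ≤ 2 * (a ^ 2 + b ^ 2) * (|Ct| ^ 2 * exp (-|y| / 2)) := by gcongr
        _ = _ := by rw [sq_abs]; ring
    have h3 : 650 * M ^ 3 * ((|a| + |b|) * (|Ct| * exp (-(3 / 4) * |y|))) ^ 2 ≤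
        1300 * M ^ 3 * Ct ^ 2 * (a ^ 2 + b ^ 2) * exp (-|y| / 2) := by
      calc _ ≤ 650 * M ^ 3 * (2 * (a ^ 2 + b ^ 2) * Ct ^ 2 * exp (-|y| / 2)) := by gcongr
        _ = _ := by ring
    exact ⟨r1.trans h3, r2.trans h3⟩
  set X : ℝ := ρ ^ 2 * |a| + ρ ^ 3 * |b| + a ^ 2 + b ^ 2 with hX
  have hX0 : 0 ≤ X := by positivity
  have hsum : ∀ y p q m : ℝ, |p| ≤ C1 * ρ ^ 2 * exp (-|y| / 2) →
      |q| ≤ C1 * ρ ^ 3 * exp (-|y| / 2) →
      |m| ≤ 1300 * M ^ 3 * Ct ^ 2 * (a ^ 2 + b ^ 2) * exp (-|y| / 2) →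
      |a * p + b * q + m| ≤ C6 * X * exp (-|y| / 2) := by
    intro y p q m hp hq hm
    have e1 := exp_pos (-|y| / 2)
    have hp' : |p| ≤ |C1| * ρ ^ 2 * exp (-|y| / 2) := hp.trans (by gcongr; exact le_abs_self _)
    have hq' : |q| ≤ |C1| * ρ ^ 3 * exp (-|y| / 2) := hq.trans (by gcongr; exact le_abs_self _)
    have h1 := mulb (le_refl |a|) hp'
    have h2 := mulb (le_refl |b|) hq'
    have h3 := abs_add_le (a * p + b * q) m
    have h4 := abs_add_le (a * p) (b * q)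
    have h5 : |a| * (|C1| * ρ ^ 2 * exp (-|y| / 2)) + |b| * (|C1| * ρ ^ 3 * exp (-|y| / 2)) +
        1300 * M ^ 3 * Ct ^ 2 * (a ^ 2 + b ^ 2) * exp (-|y| / 2) ≤ C6 * X * exp (-|y| / 2) := by
      have h6 : C6 * X * exp (-|y| / 2) - (|a| * (|C1| * ρ ^ 2 * exp (-|y| / 2)) +
          |b| * (|C1| * ρ ^ 3 * exp (-|y| / 2)) +
          1300 * M ^ 3 * Ct ^ 2 * (a ^ 2 + b ^ 2) * exp (-|y| / 2)) =
          (|C1| * (a ^ 2 + b ^ 2) + 1300 * M ^ 3 * Ct ^ 2 * (ρ ^ 2 * |a| + ρ ^ 3 * |b|)) *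
            exp (-|y| / 2) := by
        rw [hC6, hX]
        ring
      have h7 : 0 ≤ (|C1| * (a ^ 2 + b ^ 2) +
          1300 * M ^ 3 * Ct ^ 2 * (ρ ^ 2 * |a| + ρ ^ 3 * |b|)) * exp (-|y| / 2) := by
        have := abs_nonneg C1
        positivity
      linarith
    linarith
  have hG : ∀ y, |a * sA y + b * sB y + N1 y| ≤ C6 * X * exp (-|y| / 2) := fun y =>
    hsum y _ _ _ (hs1 y).1 (hs1 y).2.2.1 (hnb y).1
  have hG1 : ∀ y, |a * deriv sA y + b * deriv sB y + n2 (v y) (deriv v y) (deriv (deriv v) y)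
      (z y) (deriv z y) (deriv (deriv z) y)| ≤ C6 * X * exp (-|y| / 2) := fun y =>
    hsum y _ _ _ (hs1 y).2.1 (hs1 y).2.2.2 (hnb y).2
  -- pointwise square bound
  have hsq : ∀ y, S y ^ 2 + deriv (S) y ^ 2 ≤
      2 * (R y ^ 2 + deriv R y ^ 2) + 4 * C6 ^ 2 * X ^ 2 * exp (-|y|) := by
    intro y
    have key : ∀ p g : ℝ, |g| ≤ C6 * X * exp (-|y| / 2) →
        (p + g) ^ 2 ≤ 2 * p ^ 2 + 2 * (C6 ^ 2 * X ^ 2 * exp (-|y|)) := by
      intro p g hg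
      have h1 : g ^ 2 ≤ (C6 * X * exp (-|y| / 2)) ^ 2 := by
        rw [← sq_abs g]
        exact pow_le_pow_left₀ (abs_nonneg _) hg 2
      have h2 : (C6 * X * exp (-|y| / 2)) ^ 2 = C6 ^ 2 * X ^ 2 * exp (-|y|) := by
        rw [mul_pow, mul_pow, ← exp_nat_mul]
        congr 2
        push_cast
        ring
      rw [h2] at h1
      nlinarith [sq_nonneg (p - g)]
    have h1 := key (R y) _ (hG y)
    have h2 := key (deriv R y) _ (hG1 y)
    have e1 : S y = R y + (a * sA y + b * sB y + N1 y) := by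
      rw [congrFun hS0 y]
      ring
    have e2 : deriv (S) y = deriv R y + (a * deriv sA y + b * deriv sB y +
        n2 (v y) (deriv v y) (deriv (deriv v) y) (z y) (deriv z y) (deriv (deriv z) y)) := by
      rw [congrFun hS1 y]
      ring
    rw [e1, e2]
    linarith
  have iR : Integrable (fun y => R y ^ 2 + deriv R y ^ 2) := hR0.integrable_sq.add hR1.integrable_sq
  have iE := int_exp_abs
  have hwc := wt_cont (K := K) (ρ := ρ) c3
  have hw := fun y => wt_le (K := K) (ρ := ρ) c3 y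
  have hcont : Continuous (fun y => wt K ρ y * (S y ^ 2
        + deriv (S) y ^ 2)) := by
    have h1 := hSs.continuous
    have h2 := (sm_deriv hSs).continuous
    fun_prop
  have hint : Integrable (fun y => wt K ρ y * (S y ^ 2
        + deriv (S) y ^ 2)) := by
    refine ((iR.const_mul 2).add (iE.const_mul (4 * C6 ^ 2 * X ^ 2))).mono'
      hcont.aestronglyMeasurable (Eventually.of_forall fun y => ?_)
    obtain ⟨w0, w1⟩ := hw y
    rw [Real.norm_eq_abs, abs_of_nonneg (by positivity)]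
    refine (mul_le_of_le_one_left (by positivity) w1).trans ?_
    exact hsq y
  have iwR : Integrable (fun y => wt K ρ y * (R y ^ 2 + deriv R y ^ 2)) := by
    have hc : Continuous (fun y => wt K ρ y * (R y ^ 2 + deriv R y ^ 2)) := by
      have h1 := hR.continuous
      have h2 := (sm_deriv hR).continuous
      fun_prop
    refine iR.mono' hc.aestronglyMeasurable (Eventually.of_forall fun y => ?_)
    obtain ⟨w0, w1⟩ := hw y
    rw [Real.norm_eq_abs, abs_of_nonneg (by positivity)]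
    exact mul_le_of_le_one_left (by positivity) w1
  refine ⟨hSs, fun y => ?_, hint, ?_⟩
  · -- sup bound
    have e1 : S y = R y + (a * sA y + b * sB y + N1 y) := by
      rw [congrFun hS0 y]
      ring
    rw [e1]
    have h1 := abs_add_le (R y) (a * sA y + b * sB y + N1 y)
    have h2 := hbexp y
    have h3 := hG y
    have h4 : C6 * X * exp (-|y| / 2) ≤ C6 * X := mul_le_of_le_one_right (by positivity) (hE1 y)
    have hX4 : X ≤ 4 * ρ ^ 2 := by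
      have p2 : ρ ^ 2 ≤ 1 := pow_le_one₀ c3.le hρT'
      have p3 : ρ ^ 3 ≤ 1 := pow_le_one₀ c3.le hρT'
      have k1 : ρ ^ 2 * |a| ≤ ρ ^ 2 := mul_le_of_le_one_right (by positivity) ha1
      have k2 : ρ ^ 3 * |b| ≤ ρ ^ 2 := by
        calc ρ ^ 3 * |b| ≤ 1 * ρ ^ 2 := mul_le_mul p3 hb (abs_nonneg _) zero_le_one
          _ = ρ ^ 2 := one_mul _
      have k3 : a ^ 2 ≤ ρ ^ 2 := by
        rw [← sq_abs a, sq]
        calc |a| * |a| ≤ 1 * ρ ^ 2 := mul_le_mul ha1 ha (abs_nonneg _) zero_le_one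
          _ = ρ ^ 2 := one_mul _
      have k4 : b ^ 2 ≤ ρ ^ 2 := by
        rw [← sq_abs b, sq]
        calc |b| * |b| ≤ 1 * ρ ^ 2 := mul_le_mul hb1' hb (abs_nonneg _) zero_le_one
          _ = ρ ^ 2 := one_mul _
      linarith
    have h5 : C6 * X ≤ ρ / 2 := by
      have k1 : C6 * X ≤ C6 * (4 * ρ ^ 2) := mul_le_mul_of_nonneg_left hX4 hC60
      have k2 : ρ * (8 * C6 + 8) ≤ 1 := by
        rwa [le_div_iff₀ (by positivity)] at hρc
      have k3 : 8 * C6 * ρ ≤ 1 := by nlinarith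
      nlinarith
    have h6 : ρ ^ ((5 : ℝ) / 4) ≤ ρ / 2 := by
      have k1 : ρ ^ ((5 : ℝ) / 4) = ρ * ρ ^ ((1 : ℝ) / 4) := by
        rw [show (5 : ℝ) / 4 = 1 + 1 / 4 by norm_num, Real.rpow_add c3, Real.rpow_one]
      have k2 : ρ ^ ((1 : ℝ) / 4) ≤ 1 / 2 := by
        have k3 : ρ ^ ((1 : ℝ) / 4) ≤ (1 / 16 : ℝ) ^ ((1 : ℝ) / 4) :=
          Real.rpow_le_rpow c3.le hρb (by norm_num)
        have k4 : (1 / 16 : ℝ) ^ ((1 : ℝ) / 4) = 1 / 2 := by
          rw [show (1 / 16 : ℝ) = (1 / 2) ^ (4 : ℝ) by norm_num,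
            ← Real.rpow_mul (by norm_num)]
          norm_num
        linarith
      rw [k1]
      nlinarith
    linarith
  · -- integral
    have h1 : (∫ y, wt K ρ y * (S y ^ 2
        + deriv (S) y ^ 2)) ≤
        ∫ y, (2 * (wt K ρ y * (R y ^ 2 + deriv R y ^ 2)) +
          4 * C6 ^ 2 * X ^ 2 * exp (-|y|)) := by
      refine integral_mono hint ((iwR.const_mul 2).add (iE.const_mul (4 * C6 ^ 2 * X ^ 2)))
        fun y => ?_
      obtain ⟨w0, w1⟩ := hw y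
      have h2 := mul_le_mul_of_nonneg_left (hsq y) w0.le
      have h3 : wt K ρ y * (4 * C6 ^ 2 * X ^ 2 * exp (-|y|)) ≤
          4 * C6 ^ 2 * X ^ 2 * exp (-|y|) := mul_le_of_le_one_left (by positivity) w1
      simp only
      linarith
    have h2 : (∫ y, (2 * (wt K ρ y * (R y ^ 2 + deriv R y ^ 2)) +
          4 * C6 ^ 2 * X ^ 2 * exp (-|y|))) =
        2 * (∫ y, wt K ρ y * (R y ^ 2 + deriv R y ^ 2)) + 4 * C6 ^ 2 * X ^ 2 * I1 := by
      rw [integral_add (iwR.const_mul 2) (iE.const_mul _), integral_const_mul,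
        integral_const_mul, hI1]
    rw [h2] at h1
    refine h1.trans ?_
    have h3 : 2 * (∫ y, wt K ρ y * (R y ^ 2 + deriv R y ^ 2)) ≤ 2 * |C| * p ^ 2 := by
      have k1 : C * p ^ 2 ≤ |C| * p ^ 2 :=
        mul_le_mul_of_nonneg_right (le_abs_self _) (by positivity)
      linarith
    have e4 : p + ρ ^ 2 * |a| + ρ ^ 3 * |b| + a ^ 2 + b ^ 2 = p + X := by
      rw [hX]; ring
    rw [e4]
    set B : ℝ := 2 * |C| + 4 * C6 ^ 2 * I1 + 1 with hBdef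
    have q1 : 0 ≤ 4 * C6 ^ 2 * I1 := by positivity
    have hB1 : 1 ≤ B := by linarith
    have hB2 : B ≤ B ^ 2 := by nlinarith
    have h5 : (B * (p + X)) ^ 2 = B ^ 2 * p ^ 2 + 2 * B ^ 2 * (p * X) + B ^ 2 * X ^ 2 := by ring
    rw [h5]
    have h6 : 2 * |C| * p ^ 2 ≤ B ^ 2 * p ^ 2 :=
      mul_le_mul_of_nonneg_right (by linarith) (by positivity)
    have h7 : 4 * C6 ^ 2 * X ^ 2 * I1 ≤ B ^ 2 * X ^ 2 := by
      calc 4 * C6 ^ 2 * X ^ 2 * I1 = (4 * C6 ^ 2 * I1) * X ^ 2 := by ring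
        _ ≤ B ^ 2 * X ^ 2 := mul_le_mul_of_nonneg_right (by linarith) (by positivity)
    have h8 : 0 ≤ 2 * B ^ 2 * (p * X) := by positivity
    linarith


theorem thm_S0B (_hQ : S_QF) (_hE : S_ECL1) (hC : S_CURVE) (hT : S_TAUB)
    (hS : Pool.Agent.Helper33.KV.S_SRC) (_hL : S_WTL) : S_S0B := by
  intro α K C n Z Y V2 hα hα1 hK hZ hY hV
  obtain ⟨hTE, Ct, ρt, hρt, hρt1, hTb⟩ := hT α Z Y V2 hZ hY hV
  obtain ⟨C1, hC1⟩ := hS α K C n Z Y V2 hα hα1 hZ hY hV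
  obtain ⟨M, hM⟩ : ∃ M : ℝ, M = 2 * |C| + 2 * |Ct| + 1 := ⟨_, rfl⟩
  obtain ⟨C6, hC6⟩ : ∃ C6 : ℝ, C6 = |C1| + 1300 * M ^ 3 * Ct ^ 2 := ⟨_, rfl⟩
  have hM0 : 0 < M := by rw [hM]; positivity
  have hC60 : 0 ≤ C6 := by rw [hC6]; positivity
  have hIpos : 0 ≤ ∫ y : ℝ, exp (-|y|) := integral_nonneg fun y => (exp_pos _).le
  refine ⟨min (min ρt (1 / 16)) (1 / (8 * C6 + 8)),
    2 * |C| + 4 * C6 ^ 2 * (∫ y : ℝ, exp (-|y|)) + 1,
    lt_min (lt_min hρt (by norm_num)) (by positivity), by positivity, ?_⟩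
  intro N0 T W Wt r r' hT0 hρT hB t ht hρ1 a b ha hb
  have ht0 : 0 < t := ht.1
  obtain ⟨c1, c2, c3, -⟩ := (hC α hα hα1).1 t ht0
  have hρT' : rho α t ≤ 1 := ((hC α hα hα1).2.1 t T ht0 ht.2).2.2.trans hρT
  have hs1 := hC1 N0 T W Wt r r' hT0 hρT hB t ht
  have hρa : rho α t ≤ ρt := hρ1.trans ((min_le_left _ _).trans (min_le_left _ _))
  have hρb : rho α t ≤ 1 / 16 := hρ1.trans ((min_le_left _ _).trans (min_le_right _ _))
  have hρc : rho α t ≤ 1 / (8 * C6 + 8) := hρ1.trans (min_le_right _ _)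
  obtain ⟨hTb', -⟩ := hTb (rho α t) c3.le hρa
  have hbexp := hB.rsup t ht
  have hres := hB.res t ht
  obtain ⟨hWi, hWti, -⟩ := hB.hinf t t ht0 le_rfl ht.2
  have htt : t ∈ Icc t t := ⟨le_rfl, le_rfl⟩
  obtain ⟨hR, hR0, hR1⟩ := Pool.Agent.Helper33.KV.LawQ19.resid_facts (α := α) c2.ne' hWi hWti
    (hB.supp t ht)
  have hb0 := hB.b0 t ht
  have hb1 := hB.b1' t ht
  have hb2 := hB.b2 t ht
  have hvs : ContDiff ℝ (⊤ : ℕ∞) (inn α W t) := by
    have := hWi.smooth t htt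
    unfold inn
    fun_prop
  have hAs : ContDiff ℝ (⊤ : ℕ∞) (tauA α Z (rho α t)) := (hTE (rho α t)).1.1
  have hBs : ContDiff ℝ (⊤ : ℕ∞) (tauB α Z V2 (rho α t)) := (hTE (rho α t)).2.1.1
  have hdZ := (dZ_E hZ).1
  have hdV := (dV2_E hZ hV).1
  have hsA : ContDiff ℝ (⊤ : ℕ∞) (srcA α Z V2 (inn α W t) (rho α t)) := by
    have h1 := calL_sm (α := α) (ρ := rho α t) hvs hAs
      (D := fun y => 2 * α * rho α t ^ 2 * kap α * (y * deriv Z y)) (by fun_prop)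
    have e : srcA α Z V2 (inn α W t) (rho α t) = fun y =>
      calL α (rho α t) (inn α W t) (tauA α Z (rho α t))
        (fun y => 2 * α * rho α t ^ 2 * kap α * (y * deriv Z y)) y
      - 2 * tauB α Z V2 (rho α t) y - (5 / 2) * (2 * α + 1) * rho α t * tauA α Z (rho α t) y :=
      rfl
    rw [e]
    exact (h1.sub (contDiff_const.mul hBs)).sub (contDiff_const.mul hAs)
  have hsB : ContDiff ℝ (⊤ : ℕ∞) (srcB α Z V2 (inn α W t) (rho α t)) := by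
    have h1 := calL_sm (α := α) (ρ := rho α t) hvs hBs
      (D := fun y => 2 * α * rho α t ^ 2 * kap α * deriv Z y
        + 4 * α * rho α t ^ 3 * (deriv V2 y - cc α * Z y))
      ((contDiff_const.mul hdZ).add (contDiff_const.mul hdV))
    have e : srcB α Z V2 (inn α W t) (rho α t) = fun y =>
      calL α (rho α t) (inn α W t) (tauB α Z V2 (rho α t))
        (fun y => 2 * α * rho α t ^ 2 * kap α * deriv Z y
        + 4 * α * rho α t ^ 3 * (deriv V2 y - cc α * Z y)) y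
      - (2 * α + 1) * rho α t * tauB α Z V2 (rho α t) y
      + (4 / IQ) * cc α * rho α t ^ 2 * tauA α Z (rho α t) y := rfl
    rw [e]
    exact (h1.sub (contDiff_const.mul hBs)).add (contDiff_const.mul hAs)
  have gA : ∀ y, |tauA α Z (rho α t) y| ≤ Ct * exp (-(3 / 4) * |y|) ∧
      |deriv (tauA α Z (rho α t)) y| ≤ Ct * exp (-(3 / 4) * |y|) ∧
      |deriv (deriv (tauA α Z (rho α t))) y| ≤ Ct * exp (-(3 / 4) * |y|) := by
    intro y
    have g0 := (hTb' 0 (by norm_num) y).1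
    have g1 := (hTb' 1 (by norm_num) y).1
    have g2 := (hTb' 2 (by norm_num) y).1
    rw [iteratedDeriv_zero] at g0
    rw [iteratedDeriv_one] at g1
    rw [iteratedDeriv_succ, iteratedDeriv_one] at g2
    exact ⟨g0, g1, g2⟩
  have gB : ∀ y, |tauB α Z V2 (rho α t) y| ≤ Ct * exp (-(3 / 4) * |y|) ∧
      |deriv (tauB α Z V2 (rho α t)) y| ≤ Ct * exp (-(3 / 4) * |y|) ∧
      |deriv (deriv (tauB α Z V2 (rho α t))) y| ≤ Ct * exp (-(3 / 4) * |y|) := by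
    intro y
    have g0 := (hTb' 0 (by norm_num) y).2.1
    have g1 := (hTb' 1 (by norm_num) y).2.1
    have g2 := (hTb' 2 (by norm_num) y).2.1
    rw [iteratedDeriv_zero] at g0
    rw [iteratedDeriv_one] at g1
    rw [iteratedDeriv_succ, iteratedDeriv_one] at g2
    exact ⟨g0, g1, g2⟩
  have hb2' : ∀ y, |deriv (deriv (inn α W t)) y| ≤
      C * (exp (-|y| / 2) + rho α t ^ ((5 : ℝ) / 4)) := by
    intro y
    have h3 := hb2 y
    rwa [iteratedDeriv_succ, iteratedDeriv_one] at h3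
  have hres' : (∫ y, wt K (rho α t) y * (resid α W Wt t y ^ 2 + deriv (resid α W Wt t) y ^ 2))
      ≤ C * (rho α t ^ N0) ^ 2 := by
    rw [← pow_mul, mul_comm N0 2]
    exact hres
  exact stat hM hC6 c3 hρT' hρb hρc ha hb (by positivity) hvs hR hAs hBs hsA hsB hR0 hR1 hbexp
    hres' hb0 hb1 hb2' gA gB hs1 rfl

end Pool.Agent.Helper36.KV.S0
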